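import Mathlib

/-!
Peelable finite sets in abelian groups of odd order and the sweep lemma.
-/

namespace Pool.Agent.H309R2.AP3

open Finset

/-- A finite set is peelable when every nonempty subset `T` has an element which is not the
midpoint of two distinct elements of `T`. -/
def Peel {G : Type*} [AddCommGroup G] (S : Finset G) : Prop :=
  ∀ T : Finset G, T ⊆ S → T.Nonempty → ∃ y ∈ T, ∀ x ∈ T, ∀ z ∈ T, x + z = y + y → x = z

lemma peel_empty {G : Type*} [AddCommGroup G] : Peel (∅ : Finset G) := by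
  intro T hT hne
  rw [subset_empty] at hT
  subst hT
  exact absurd hne (by simp)

lemma Peel.mono {G : Type*} [AddCommGroup G] {S T : Finset G} (hS : Peel S) (h : T ⊆ S) :
    Peel T := fun U hU hne => hS U (hU.trans h) hne

set_option linter.unusedSectionVars false

section
variable {p n : ℕ} [NeZero p]

/-- Gluing of slices: the first coordinate `u` is read after the shift `s`. -/
def glue (F : ℕ → Finset (Fin n → ZMod p)) (s : ZMod p) : Finset (Fin (n + 1) → ZMod p) :=
  univ.filter fun x => Fin.tail x ∈ F ((x 0 + s).val)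

lemma mem_glue {F : ℕ → Finset (Fin n → ZMod p)} {s : ZMod p} {x : Fin (n + 1) → ZMod p} :
    x ∈ glue F s ↔ Fin.tail x ∈ F ((x 0 + s).val) := by
  simp [glue]

lemma tail_add (x z : Fin (n + 1) → ZMod p) : Fin.tail (x + z) = Fin.tail x + Fin.tail z := rfl

lemma eq_of_zero_tail {x z : Fin (n + 1) → ZMod p} (h0 : x 0 = z 0) (ht : Fin.tail x = Fin.tail z) :
    x = z := by
  funext i
  refine Fin.cases h0 (fun j => ?_) i
  exact congrFun ht j

/-- The sweep lemma. -/
lemma peel_glue (F : ℕ → Finset (Fin n → ZMod p)) (s : ZMod p)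
    (h1 : ∀ u < p, Peel (F u))
    (h2 : ∀ u1 u2 u3, u1 < p → u2 < p → u3 < p → u1 + u2 + p = 2 * u3 →
      ∀ x ∈ F u1, ∀ z ∈ F u2, ∀ y ∈ F u3, x + z ≠ y + y) :
    Peel (glue F s) := by
  classical
  intro T hT hne
  set f : (Fin (n + 1) → ZMod p) → ℕ := fun x => (x 0 + s).val with hf
  obtain ⟨m, hmT, hmax⟩ := T.exists_max_image f hne
  set T' := T.filter fun x => f x = f m with hT'
  have hlt : ∀ x, f x < p := fun x => ZMod.val_lt _
  have hsub : T'.image Fin.tail ⊆ F (f m) := by
    intro c hc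
    rw [mem_image] at hc
    obtain ⟨x, hx, rfl⟩ := hc
    rw [hT', mem_filter] at hx
    have := mem_glue.1 (hT hx.1)
    rw [← hx.2]
    exact this
  have hne' : (T'.image Fin.tail).Nonempty := by
    refine ⟨Fin.tail m, ?_⟩
    rw [mem_image]
    exact ⟨m, by rw [hT', mem_filter]; exact ⟨hmT, rfl⟩, rfl⟩
  obtain ⟨c, hc, hpeel⟩ := h1 (f m) (hlt m) _ hsub hne'
  rw [mem_image] at hc
  obtain ⟨y, hy, rfl⟩ := hc
  rw [hT', mem_filter] at hy
  refine ⟨y, hy.1, ?_⟩
  intro x hx z hz hxz
  have hx0 : (x 0 + s) + (z 0 + s) = (y 0 + s) + (y 0 + s) := by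
    have := congrFun hxz 0
    simp only [Pi.add_apply] at this
    linear_combination this
  have hmod : (f x + f z) % p = (f y + f y) % p := by
    have h := congrArg ZMod.val hx0
    rw [ZMod.val_add (x 0 + s) (z 0 + s), ZMod.val_add (y 0 + s) (y 0 + s)] at h
    exact h
  have htail : Fin.tail x + Fin.tail z = Fin.tail y + Fin.tail y := by
    rw [← tail_add, hxz, tail_add]
  have hxm := hmax x hx
  have hzm := hmax z hz
  have hyp := hlt y
  rw [hy.2] at hmod hyp
  have hcase : f x + f z = f m + f m ∨ f x + f z + p = 2 * f m := by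
    have h3 : (f m + f m - (f x + f z)) % p = 0 := by
      rw [Nat.sub_mod_eq_zero_of_mod_eq hmod.symm]
    obtain ⟨t, ht⟩ := Nat.dvd_of_mod_eq_zero h3
    have ht2 : t < 2 := by
      by_contra hge
      push Not at hge
      have : p * 2 ≤ p * t := Nat.mul_le_mul_left _ hge
      omega
    interval_cases t
    · left; omega
    · right; omega
  rcases hcase with h | h
  · have hfx : f x = f m := by omega
    have hfz : f z = f m := by omega
    have hx' : Fin.tail x ∈ T'.image Fin.tail :=
      mem_image.2 ⟨x, by rw [hT', mem_filter]; exact ⟨hx, hfx⟩, rfl⟩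
    have hz' : Fin.tail z ∈ T'.image Fin.tail :=
      mem_image.2 ⟨z, by rw [hT', mem_filter]; exact ⟨hz, hfz⟩, rfl⟩
    have ht := hpeel _ hx' _ hz' htail
    refine eq_of_zero_tail ?_ ht
    have : x 0 + s = z 0 + s := ZMod.val_injective p (by
      have : f x = f z := by omega
      exact this)
    exact add_right_cancel this
  · exfalso
    exact h2 (f x) (f z) (f m) (hlt x) (hlt z) (hlt m) h _ (mem_glue.1 (hT hx)) _
      (mem_glue.1 (hT hz)) _ (by
        have := mem_glue.1 (hT hy.1)
        rw [← hy.2]; exact this) htail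

/-- Cardinality of a glued set. -/
lemma card_glue (F : ℕ → Finset (Fin n → ZMod p)) (s : ZMod p) :
    (glue F s).card = ∑ u ∈ range p, (F u).card := by
  classical
  have hmaps : ∀ x ∈ glue F s, (x 0 + s).val ∈ range p := by
    intro x _
    rw [mem_range]; exact ZMod.val_lt _
  rw [card_eq_sum_card_fiberwise hmaps]
  refine sum_congr rfl fun u hu => ?_
  rw [mem_range] at hu
  refine card_bij (fun x _ => Fin.tail x) ?_ ?_ ?_
  · intro x hx
    rw [mem_filter] at hx
    have := mem_glue.1 hx.1
    rwa [hx.2] at this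
  · intro x hx z hz hxz
    rw [mem_filter] at hx hz
    refine eq_of_zero_tail ?_ hxz
    have : x 0 + s = z 0 + s := ZMod.val_injective p (by rw [hx.2, hz.2])
    exact add_right_cancel this
  · intro c hc
    refine ⟨Fin.cons ((u : ZMod p) - s) c, ?_, Fin.tail_cons _ _⟩
    rw [mem_filter]
    have hval : ((Fin.cons ((u : ZMod p) - s) c : Fin (n + 1) → ZMod p) 0 + s).val = u := by
      rw [Fin.cons_zero, sub_add_cancel, ZMod.val_natCast, Nat.mod_eq_of_lt hu]
    refine ⟨?_, hval⟩
    rw [mem_glue, hval, Fin.tail_cons]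
    exact hc

/-- Doubling. -/
def dbl (S : Finset (Fin n → ZMod p)) : Finset (Fin n → ZMod p) := by
  classical exact S.image fun x => x + x

/-- Halving. -/
def half (S : Finset (Fin n → ZMod p)) : Finset (Fin n → ZMod p) :=
  univ.filter fun x => x + x ∈ S

lemma mem_half {S : Finset (Fin n → ZMod p)} {x} : x ∈ half S ↔ x + x ∈ S := by simp [half]

lemma mem_dbl {S : Finset (Fin n → ZMod p)} {x} : x ∈ dbl S ↔ ∃ y ∈ S, y + y = x := by
  classical simp [dbl]

lemma two_inj (hp : Odd p) {x z : Fin n → ZMod p} (h : x + x = z + z) : x = z := by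
  have h2 : IsUnit (2 : ZMod p) := by
    have : ((2 : ℕ) : ZMod p) = 2 := by norm_num
    rw [← this, ZMod.isUnit_iff_coprime]
    exact (Nat.coprime_two_left).2 hp
  funext i
  have hi := congrFun h i
  simp only [Pi.add_apply] at hi
  have : (2 : ZMod p) * x i = 2 * z i := by linear_combination hi
  exact h2.mul_left_cancel this

lemma card_dbl (hp : Odd p) (S : Finset (Fin n → ZMod p)) : (dbl S).card = S.card := by
  classical
  rw [dbl]
  exact card_image_of_injective _ fun x z h => two_inj hp h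

lemma card_half (hp : Odd p) (S : Finset (Fin n → ZMod p)) : (half S).card = S.card := by
  classical
  have hinj : Function.Injective fun x : Fin n → ZMod p => x + x := fun x z h => two_inj hp h
  have hbij : Function.Bijective fun x : Fin n → ZMod p => x + x :=
    Finite.injective_iff_bijective.1 hinj
  refine card_bij (fun x _ => x + x) (fun x hx => mem_half.1 hx) (fun x _ z _ h => hinj h) ?_
  intro y hy
  obtain ⟨x, hx⟩ := hbij.2 y
  refine ⟨x, mem_half.2 ?_, hx⟩
  simp only at hx
  rw [hx]; exact hy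

lemma peel_dbl (hp : Odd p) {S : Finset (Fin n → ZMod p)} (hS : Peel S) : Peel (dbl S) := by
  classical
  intro T hT hne
  set T0 := S.filter fun x => x + x ∈ T with hT0
  have hne0 : T0.Nonempty := by
    obtain ⟨t, ht⟩ := hne
    obtain ⟨y, hy, rfl⟩ := mem_dbl.1 (hT ht)
    exact ⟨y, by rw [hT0, mem_filter]; exact ⟨hy, ht⟩⟩
  obtain ⟨y, hy, hpeel⟩ := hS T0 (filter_subset _ _) hne0
  rw [hT0, mem_filter] at hy
  refine ⟨y + y, hy.2, ?_⟩
  intro x hx z hz hxz
  obtain ⟨x0, hx0, rfl⟩ := mem_dbl.1 (hT hx)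
  obtain ⟨z0, hz0, rfl⟩ := mem_dbl.1 (hT hz)
  have : x0 = z0 := by
    apply hpeel x0 (by rw [hT0, mem_filter]; exact ⟨hx0, hx⟩) z0
      (by rw [hT0, mem_filter]; exact ⟨hz0, hz⟩)
    apply two_inj hp
    rw [← hxz]; abel
  rw [this]

lemma peel_half (hp : Odd p) {S : Finset (Fin n → ZMod p)} (hS : Peel S) : Peel (half S) := by
  classical
  intro T hT hne
  obtain ⟨y, hy, hpeel⟩ := hS (T.image fun x => x + x) (by
    intro c hc
    rw [mem_image] at hc
    obtain ⟨x, hx, rfl⟩ := hc
    exact mem_half.1 (hT hx)) (hne.image _)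
  rw [mem_image] at hy
  obtain ⟨y, hy, rfl⟩ := hy
  refine ⟨y, hy, ?_⟩
  intro x hx z hz hxz
  apply two_inj hp
  apply hpeel _ (mem_image_of_mem _ hx) _ (mem_image_of_mem _ hz)
  have : x + x + (z + z) = (x + z) + (x + z) := by abel
  rw [this, hxz]

end

end Pool.Agent.H309R2.AP3
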