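import Mathlib
import Pool.Agent.H24.Lib.R_seed8.H309R2.AP3.Peel

/-!
The recursion over the dimension for families of peelable sets.
-/

namespace Pool.Agent.H309R2.AP3

open Finset

set_option linter.unusedSectionVars false
set_option linter.unusedVariables false

/-- Two families of peelable sets with `K i₁ + K i₂` disjoint from `Z j` when `i₁ + i₂ ≤ j`. -/
structure Fam (p n : ℕ) [NeZero p] where
  K : ℕ → Finset (Fin n → ZMod p)
  Z : ℕ → Finset (Fin n → ZMod p)
  hK : ∀ i, Peel (K i)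
  hZ : ∀ j, Peel (Z j)
  h : ∀ i₁ i₂ j, i₁ + i₂ ≤ j → ∀ x ∈ K i₁, ∀ z ∈ K i₂, x + z ∉ Z j

/-- Parameters of the recursion; the modulus is `2 * P + 1`. -/
structure Par where
  P : ℕ
  q : ℕ
  H : ℕ
  e : ℕ
  t : ℕ → ℕ
  nu : ℕ → ℕ
  hP : P + 1 = H * q + e
  hq : 1 ≤ q
  hH : 2 ≤ H
  hnu : ∀ b ≤ H, ∀ a₁ a₂, a₁ + a₂ ≤ b → t a₁ + t a₂ ≤ nu b

section
variable {p n : ℕ} [NeZero p] (π : Par) (F : Fam p n)

/-- Slices of the new `K i`. -/
def sK (i u : ℕ) : Finset (Fin n → ZMod p) :=
  if u < π.H * π.q then (if u / π.q < i then F.K (π.t (u / π.q)) else ∅)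
  else if u < π.P + 1 then ∅
  else (if (u - (π.P + 1)) / π.q < π.H / 2 ∧ π.H + (u - (π.P + 1)) / π.q < i then
    half (F.Z (π.nu (2 * ((u - (π.P + 1)) / π.q) + 1))) else ∅)

/-- Slices of the new `Z (H + m)`. -/
def sZ (m u : ℕ) : Finset (Fin n → ZMod p) :=
  if u < (π.H - m) * π.q then dbl (F.K (π.t (u / π.q + m / 2)))
  else if u < π.P + 1 then
    (if (π.H - m) * π.q + π.e ≤ u then F.Z (π.nu ((u - ((π.H - m) * π.q + π.e)) / π.q)) else ∅)
  else (if (u - (π.P + 1)) / π.q < (π.H - m) / 2 then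
    F.Z (π.nu (2 * ((u - (π.P + 1)) / π.q) + 1 + 2 * (m / 2))) else ∅)

/-- Slices of the new `Z (2 * H + m)`. -/
def sY (m u : ℕ) : Finset (Fin n → ZMod p) :=
  if u < π.H * π.q ∧ m ≤ u / π.q then F.Z (π.nu (u / π.q)) else ∅

/-- The new `K`. -/
def nK (i : ℕ) : Finset (Fin (n + 1) → ZMod p) := glue (sK π F i) 0

/-- The new `Z`. -/
def nZ (j : ℕ) : Finset (Fin (n + 1) → ZMod p) :=
  if j ≤ 2 * π.H then
    glue (sZ π F (j - π.H)) (((π.H - (j - π.H)) * π.q + π.e : ℕ) : ZMod p)
  else glue (sY π F (j - 2 * π.H)) 0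

lemma div_add_div_le (a b q : ℕ) : a / q + b / q ≤ (a + b) / q := by
  rcases Nat.eq_zero_or_pos q with h | h
  · subst h; simp
  · rw [Nat.le_div_iff_mul_le h, add_mul]
    exact Nat.add_le_add (Nat.div_mul_le_self a q) (Nat.div_mul_le_self b q)

lemma peel_nK (hp : p = 2 * π.P + 1) (i : ℕ) : Peel (nK π F i) := by
  have hodd : Odd p := ⟨π.P, hp⟩
  have hq := π.hq
  have hP := π.hP
  apply peel_glue
  · intro u _
    unfold sK
    split_ifs
    · exact F.hK _
    · exact peel_empty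
    · exact peel_empty
    · exact peel_half hodd (F.hZ _)
    · exact peel_empty
  · intro u1 u2 u3 h1 h2 h3 hu x hx z hz y hy hxz
    have hu3 : π.P + 1 ≤ u3 := by omega
    have hHq : π.H * π.q ≤ π.P + 1 := by omega
    unfold sK at hy
    rw [if_neg (by omega), if_neg (by omega)] at hy
    split_ifs at hy with hc
    swap
    · simp at hy
    obtain ⟨hb, -⟩ := hc
    set s := u3 - (π.P + 1) with hs
    set b := s / π.q with hbdef
    have hs1 : s < (b + 1) * π.q := by
      rw [hbdef]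
      exact Nat.lt_mul_of_div_lt (Nat.lt_succ_self _) hq
    have hsum : u1 + u2 = 2 * s + 1 := by omega
    have h2b : (2 * b + 2) * π.q ≤ π.H * π.q := Nat.mul_le_mul_right _ (by omega)
    have h2b' : (2 * b + 2) * π.q = 2 * ((b + 1) * π.q) := by ring
    unfold sK at hx hz
    rw [if_pos (by omega)] at hx hz
    split_ifs at hx hz <;> try (simp at hx)
    · have hd : u1 / π.q + u2 / π.q ≤ 2 * b + 1 := by
        have h5 := div_add_div_le u1 u2 π.q
        have h6 : (u1 + u2) / π.q < 2 * b + 2 := by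
          rw [Nat.div_lt_iff_lt_mul hq]
          omega
        omega
      have ht := π.hnu (2 * b + 1) (by omega) _ _ hd
      apply F.h _ _ _ ht _ hx _ hz
      rw [hxz]
      exact mem_half.1 hy
    · simp at hz

lemma peel_nZ (hp : p = 2 * π.P + 1) (j : ℕ) : Peel (nZ π F j) := by
  have hodd : Odd p := ⟨π.P, hp⟩
  have hq := π.hq
  have hP := π.hP
  unfold nZ
  split_ifs with hj
  · set m := j - π.H with hm
    have hA : (π.H - m) * π.q ≤ π.H * π.q := Nat.mul_le_mul_right _ (Nat.sub_le _ _)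
    apply peel_glue
    · intro u _
      unfold sZ
      split_ifs
      · exact peel_dbl hodd (F.hK _)
      · exact F.hZ _
      · exact peel_empty
      · exact F.hZ _
      · exact peel_empty
    · intro u1 u2 u3 h1 h2 h3 hu x hx z hz y hy hxz
      have hu3 : π.P + 1 ≤ u3 := by omega
      unfold sZ at hy
      rw [if_neg (by omega), if_neg (by omega)] at hy
      split_ifs at hy with hb
      swap
      · simp at hy
      set s := u3 - (π.P + 1) with hs
      set b := s / π.q with hbdef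
      have hs1 : s < (b + 1) * π.q := by
        rw [hbdef]
        exact Nat.lt_mul_of_div_lt (Nat.lt_succ_self _) hq
      have hsum : u1 + u2 = 2 * s + 1 := by omega
      have h2b : (2 * b + 2) * π.q ≤ (π.H - m) * π.q := Nat.mul_le_mul_right _ (by omega)
      have h2b' : (2 * b + 2) * π.q = 2 * ((b + 1) * π.q) := by ring
      unfold sZ at hx hz
      rw [if_pos (by omega)] at hx hz
      obtain ⟨x0, hx0, rfl⟩ := mem_dbl.1 hx
      obtain ⟨z0, hz0, rfl⟩ := mem_dbl.1 hz
      have hd : u1 / π.q + u2 / π.q ≤ 2 * b + 1 := by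
        have h5 := div_add_div_le u1 u2 π.q
        have h6 : (u1 + u2) / π.q < 2 * b + 2 := by
          rw [Nat.div_lt_iff_lt_mul hq]
          omega
        omega
      have ht := π.hnu (2 * b + 1 + 2 * (m / 2)) (by omega) (u1 / π.q + m / 2)
        (u2 / π.q + m / 2) (by omega)
      apply F.h _ _ _ ht _ hx0 _ hz0
      have : x0 + z0 = y := by
        apply two_inj hodd
        rw [← hxz]; abel
      rw [this]; exact hy
  · apply peel_glue
    · intro u _
      unfold sY
      split_ifs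
      · exact F.hZ _
      · exact peel_empty
    · intro u1 u2 u3 h1 h2 h3 hu x hx z hz y hy hxz
      unfold sY at hy
      rw [if_neg (by rintro ⟨h, -⟩; omega)] at hy
      simp at hy

/-- Description of the elements of `nK`. -/
lemma mem_nK_cases {i : ℕ} {x : Fin (n + 1) → ZMod p} (hx : x ∈ nK π F i) :
    ((x 0).val < π.H * π.q ∧ (x 0).val + 1 ≤ i * π.q ∧
      Fin.tail x ∈ F.K (π.t ((x 0).val / π.q))) ∨
    (π.P + 1 ≤ (x 0).val ∧ π.H + 1 ≤ i ∧ (x 0).val + 1 ≤ i * π.q + π.e) := by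
  have hq := π.hq
  have hP := π.hP
  have h := mem_glue.1 hx
  rw [add_zero] at h
  unfold sK at h
  split_ifs at h with h1 h2 h3 h4
  · left
    refine ⟨h1, ?_, h⟩
    exact Nat.lt_mul_of_div_lt h2 hq
  · simp at h
  · simp at h
  · right
    obtain ⟨h5, h6⟩ := h4
    have h9 : π.H + 1 ≤ i := by
      have := Nat.zero_le (((x 0).val - (π.P + 1)) / π.q)
      omega
    refine ⟨by omega, h9, ?_⟩
    set s := (x 0).val - (π.P + 1) with hs
    have hs1 : s < (s / π.q + 1) * π.q :=
      Nat.lt_mul_of_div_lt (Nat.lt_succ_self _) hq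
    have h7 : (π.H + s / π.q + 1) * π.q ≤ i * π.q := Nat.mul_le_mul_right _ (by omega)
    have h8 : (π.H + s / π.q + 1) * π.q = π.H * π.q + (s / π.q + 1) * π.q := by ring
    omega
  · simp at h

lemma nK_nZ (hp : p = 2 * π.P + 1) (i₁ i₂ j : ℕ) (hij : i₁ + i₂ ≤ j)
    (x : Fin (n + 1) → ZMod p) (hx : x ∈ nK π F i₁) (z : Fin (n + 1) → ZMod p)
    (hz : z ∈ nK π F i₂) : x + z ∉ nZ π F j := by
  intro hw
  have hq := π.hq
  have hP := π.hP
  have hx' := mem_nK_cases π F hx
  have hz' := mem_nK_cases π F hz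
  set r1 := (x 0).val with hr1
  set r2 := (z 0).val with hr2
  have hr1p : r1 < p := ZMod.val_lt _
  have hr2p : r2 < p := ZMod.val_lt _
  have hijq : i₁ * π.q + i₂ * π.q ≤ j * π.q := by
    rw [← add_mul]; exact Nat.mul_le_mul_right _ hij
  -- the key contradiction
  have key : ∀ b, r1 + r2 < π.H * π.q → (r1 + r2) / π.q ≤ b → b ≤ π.H →
      Fin.tail (x + z) ∉ F.Z (π.nu b) := by
    intro b h1 h2 h3 h4
    rcases hx' with ⟨_, _, hx3⟩ | ⟨hx1, _⟩
    swap
    · omega
    rcases hz' with ⟨_, _, hz3⟩ | ⟨hz1, _⟩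
    swap
    · omega
    have h5 := div_add_div_le r1 r2 π.q
    exact F.h _ _ _ (π.hnu b h3 _ _ (by omega)) _ hx3 _ hz3 h4
  unfold nZ at hw
  split_ifs at hw with hj
  · set m := j - π.H with hm
    have hmH : m ≤ π.H := by omega
    have hA : (π.H - m) * π.q + m * π.q = π.H * π.q := by
      rw [← add_mul]; congr 1; omega
    have hjm : j * π.q ≤ π.H * π.q + m * π.q := by
      rw [← add_mul]; exact Nat.mul_le_mul_right _ (by omega)
    have hsum : r1 + r2 + 2 ≤ π.H * π.q + m * π.q + π.e := by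
      rcases hx' with ⟨_, hx2, _⟩ | ⟨_, hx2, hx3⟩ <;> rcases hz' with ⟨_, hz2, _⟩ | ⟨_, hz2, hz3⟩ <;>
        omega
    have hval : ((x + z) 0 + (((π.H - m) * π.q + π.e : ℕ) : ZMod p)).val =
        r1 + r2 + ((π.H - m) * π.q + π.e) := by
      have h1 : (x + z) 0 + (((π.H - m) * π.q + π.e : ℕ) : ZMod p) =
          ((r1 + r2 + ((π.H - m) * π.q + π.e) : ℕ) : ZMod p) := by
        rw [hr1, hr2]; push_cast; simp
      rw [h1, ZMod.val_natCast, Nat.mod_eq_of_lt]
      omega
    have hw' := mem_glue.1 hw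
    rw [hval] at hw'
    unfold sZ at hw'
    rw [if_neg (by omega)] at hw'
    split_ifs at hw' with h1 h2 h3
    · rw [Nat.add_sub_cancel] at hw'
      have h4 : r1 + r2 < m * π.q := by omega
      refine key _ (by omega) le_rfl ?_ hw'
      have : (r1 + r2) / π.q < m := by
        rw [Nat.div_lt_iff_lt_mul hq]; exact h4
      omega
    · simp at hw'
    · set s := r1 + r2 + ((π.H - m) * π.q + π.e) - (π.P + 1) with hs
      have hs' : r1 + r2 = s + m * π.q := by omega
      have hs1 : s < (s / π.q + 1) * π.q :=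
        Nat.lt_mul_of_div_lt (Nat.lt_succ_self _) hq
      have h5 : (s / π.q + 1) * π.q ≤ (π.H - m) * π.q := Nat.mul_le_mul_right _ (by omega)
      refine key _ (by omega) ?_ ?_ hw'
      · rw [hs', Nat.add_mul_div_right _ _ hq]
        omega
      · omega
    · simp at hw'
  · set m := j - 2 * π.H with hm
    have hjm : j * π.q = 2 * (π.H * π.q) + m * π.q := by
      have : j = 2 * π.H + m := by omega
      rw [this]; ring
    have hsum : r1 + r2 + 2 ≤ j * π.q + 2 * π.e := by
      rcases hx' with ⟨_, hx2, _⟩ | ⟨_, hx2, hx3⟩ <;> rcases hz' with ⟨_, hz2, _⟩ | ⟨_, hz2, hz3⟩ <;>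
        omega
    have hw' := mem_glue.1 hw
    rw [add_zero] at hw'
    have hval : ((x + z) 0).val = (r1 + r2) % p := by
      rw [Pi.add_apply, ZMod.val_add]
    rw [hval] at hw'
    unfold sY at hw'
    split_ifs at hw' with h1
    swap
    · simp at hw'
    obtain ⟨h1, h2⟩ := h1
    rcases Nat.lt_or_ge (r1 + r2) p with h3 | h3
    · rw [Nat.mod_eq_of_lt h3] at h1 h2 hw'
      refine key _ h1 le_rfl ?_ hw'
      have : (r1 + r2) / π.q < π.H := by
        rw [Nat.div_lt_iff_lt_mul hq]; exact h1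
      omega
    · have h4 : (r1 + r2) % p = r1 + r2 - p := by
        rw [Nat.mod_eq_sub_mod h3, Nat.mod_eq_of_lt (by omega)]
      rw [h4] at h2
      have h5 : (r1 + r2 - p) / π.q < m := by
        rw [Nat.div_lt_iff_lt_mul hq]; omega
      omega

/-- The next family. -/
def next (hp : p = 2 * π.P + 1) : Fam p (n + 1) where
  K := nK π F
  Z := nZ π F
  hK := peel_nK π F hp
  hZ := peel_nZ π F hp
  h := nK_nZ π F hp

end

end Pool.Agent.H309R2.AP3
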