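import Mathlib
import Pool.Agent.H24.Lib.R_seed8.H309R2.AP3.Step

/-!
Sizes in the recursion over the dimension.
-/

namespace Pool.Agent.H309R2.AP3

open Finset

set_option linter.unusedSectionVars false
set_option linter.unusedVariables false

lemma sum_ge2 (f : ℕ → ℕ) {p a s b : ℕ} (h1 : a ≤ s) (h2 : s + b ≤ p) :
    ∑ u ∈ range a, f u + ∑ v ∈ range b, f (s + v) ≤ ∑ u ∈ range p, f u := by
  have e1 : p = (s + b) + (p - (s + b)) := by omega
  have e2 : s = a + (s - a) := by omega
  rw [e1, sum_range_add, sum_range_add]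
  have : ∑ u ∈ range a, f u ≤ ∑ u ∈ range s, f u := by
    rw [e2, sum_range_add]; exact Nat.le_add_right _ _
  omega

lemma sum_ge3 (f : ℕ → ℕ) {p a s b s' b' : ℕ} (h1 : a ≤ s) (h2 : s + b ≤ s') (h3 : s' + b' ≤ p) :
    ∑ u ∈ range a, f u + ∑ v ∈ range b, f (s + v) + ∑ v ∈ range b', f (s' + v) ≤
      ∑ u ∈ range p, f u := by
  have e1 : p = (s' + b') + (p - (s' + b')) := by omega
  rw [e1, sum_range_add, sum_range_add]
  have := sum_ge2 f h1 h2
  omega

lemma sum_block (g : ℕ → ℕ) (A : ℕ) {q : ℕ} (hq : 1 ≤ q) :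
    ∑ u ∈ range (A * q), g (u / q) = q * ∑ a ∈ range A, g a := by
  induction A with
  | zero => simp
  | succ A ih =>
    rw [add_mul, one_mul, sum_range_add, ih, sum_range_succ, mul_add]
    congr 1
    have : ∀ v ∈ range q, g ((A * q + v) / q) = g A := by
      intro v hv
      rw [mem_range] at hv
      congr 1
      rw [Nat.div_eq_of_lt_le]
      · omega
      · rw [add_mul, one_mul]; omega
    rw [sum_congr rfl this]
    simp

/-- The three parts of the size operator. -/
def opK (H : ℕ) (t nu k z : ℕ → ℕ) (i : ℕ) : ℕ :=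
  ∑ a ∈ range (min i H), k (t a) + ∑ b ∈ range (min (i - H) (H / 2)), z (nu (2 * b + 1))

def opZ (H : ℕ) (t nu k z : ℕ → ℕ) (m : ℕ) : ℕ :=
  ∑ a ∈ range (H - m), k (t (a + m / 2)) + ∑ b ∈ range m, z (nu b) +
    ∑ b ∈ range ((H - m) / 2), z (nu (2 * b + 1 + 2 * (m / 2)))

def opY (H : ℕ) (nu z : ℕ → ℕ) (m : ℕ) : ℕ :=
  ∑ b ∈ range H, if m ≤ b then z (nu b) else 0

section
variable {p n : ℕ} [NeZero p] (π : Par) (F : Fam p n)

lemma card_nK (hp : p = 2 * π.P + 1) (i : ℕ) :
    π.q * opK π.H π.t π.nu (fun i => (F.K i).card) (fun j => (F.Z j).card) i ≤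
      (nK π F i).card := by
  have hodd : Odd p := ⟨π.P, hp⟩
  have hq := π.hq
  have hP := π.hP
  have hH := π.hH
  rw [nK, card_glue]
  have hA : min i π.H * π.q ≤ π.H * π.q := Nat.mul_le_mul_right _ (min_le_right _ _)
  have hB : min (i - π.H) (π.H / 2) * π.q ≤ π.H / 2 * π.q :=
    Nat.mul_le_mul_right _ (min_le_right _ _)
  have hB2 : 2 * (π.H / 2 * π.q) ≤ π.H * π.q := by
    rw [← mul_assoc]; exact Nat.mul_le_mul_right _ (by omega)
  have hHq : 2 * 1 ≤ π.H * π.q := Nat.mul_le_mul hH hq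
  refine le_trans ?_ (sum_ge2 (fun u => (sK π F i u).card) (p := p)
    (a := min i π.H * π.q) (s := π.P + 1) (b := min (i - π.H) (π.H / 2) * π.q) (by omega)
    (by omega))
  rw [opK, mul_add]
  apply Nat.add_le_add
  · rw [← sum_block (fun a => (F.K (π.t a)).card) _ hq]
    apply sum_le_sum
    intro u hu
    rw [mem_range] at hu
    have h1 : u / π.q < min i π.H := by rw [Nat.div_lt_iff_lt_mul hq]; exact hu
    rw [sK, if_pos (by omega), if_pos (by omega)]
  · rw [← sum_block (fun b => (F.Z (π.nu (2 * b + 1))).card) _ hq]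
    apply sum_le_sum
    intro v hv
    rw [mem_range] at hv
    have h1 : v / π.q < min (i - π.H) (π.H / 2) := by
      rw [Nat.div_lt_iff_lt_mul hq]; exact hv
    have h0 : 0 ≤ v / π.q := Nat.zero_le _
    rw [sK, if_neg (by omega), if_neg (by omega), Nat.add_sub_cancel_left,
      if_pos (by constructor <;> omega), card_half hodd]

lemma card_nZ (hp : p = 2 * π.P + 1) {j : ℕ} (hj : j ≤ 2 * π.H) :
    π.q * opZ π.H π.t π.nu (fun i => (F.K i).card) (fun j => (F.Z j).card) (j - π.H) ≤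
      (nZ π F j).card := by
  have hodd : Odd p := ⟨π.P, hp⟩
  have hq := π.hq
  have hP := π.hP
  have hH := π.hH
  rw [nZ, if_pos hj, card_glue]
  set m := j - π.H with hm
  have hAB : (π.H - m) * π.q + m * π.q = π.H * π.q := by
    rw [← add_mul]; congr 1; omega
  have hC : 2 * ((π.H - m) / 2 * π.q) ≤ (π.H - m) * π.q := by
    rw [← mul_assoc]; exact Nat.mul_le_mul_right _ (by omega)
  have hHq : 2 * 1 ≤ π.H * π.q := Nat.mul_le_mul hH hq
  refine le_trans ?_ (sum_ge3 (fun u => (sZ π F m u).card) (p := p)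
    (a := (π.H - m) * π.q) (s := (π.H - m) * π.q + π.e) (b := m * π.q) (s' := π.P + 1)
    (b' := (π.H - m) / 2 * π.q) (by omega) (by omega) (by omega))
  rw [opZ, mul_add, mul_add]
  apply Nat.add_le_add
  apply Nat.add_le_add
  · rw [← sum_block (fun a => (F.K (π.t (a + m / 2))).card) _ hq]
    apply sum_le_sum
    intro u hu
    rw [mem_range] at hu
    rw [sZ, if_pos hu, card_dbl hodd]
  · rw [← sum_block (fun b => (F.Z (π.nu b)).card) _ hq]
    apply sum_le_sum
    intro v hv
    rw [mem_range] at hv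
    rw [sZ, if_neg (by omega), if_pos (by omega), if_pos (by omega), Nat.add_sub_cancel_left]
  · rw [← sum_block (fun b => (F.Z (π.nu (2 * b + 1 + 2 * (m / 2)))).card) _ hq]
    apply sum_le_sum
    intro v hv
    rw [mem_range] at hv
    have h1 : v / π.q < (π.H - m) / 2 := by rw [Nat.div_lt_iff_lt_mul hq]; exact hv
    rw [sZ, if_neg (by omega), if_neg (by omega), Nat.add_sub_cancel_left, if_pos h1]

lemma card_nY (hp : p = 2 * π.P + 1) {j : ℕ} (hj : ¬ j ≤ 2 * π.H) :
    π.q * opY π.H π.nu (fun j => (F.Z j).card) (j - 2 * π.H) ≤ (nZ π F j).card := by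
  have hq := π.hq
  have hP := π.hP
  have hH := π.hH
  rw [nZ, if_neg hj, card_glue]
  set m := j - 2 * π.H with hm
  refine le_trans ?_ (sum_ge2 (fun u => (sY π F m u).card) (p := p)
    (a := π.H * π.q) (s := π.H * π.q) (b := 0) le_rfl (by omega))
  rw [opY, ← sum_block (fun b => if m ≤ b then (F.Z (π.nu b)).card else 0) _ hq]
  refine le_trans ?_ (Nat.le_add_right _ _)
  apply sum_le_sum
  intro u hu
  rw [mem_range] at hu
  split_ifs with h
  · rw [sY, if_pos ⟨hu, h⟩]
  · exact Nat.zero_le _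

/-- The base family, in dimension `0`. -/
def base (p : ℕ) [NeZero p] : Fam p 0 where
  K := fun i => if 1 ≤ i then univ else ∅
  Z := fun _ => ∅
  hK := by
    intro i T _ hne
    obtain ⟨y, hy⟩ := hne
    exact ⟨y, hy, fun x _ z _ _ => Subsingleton.elim _ _⟩
  hZ := fun _ => peel_empty
  h := by intro i₁ i₂ j _ x _ z _ h; simp at h

end

end Pool.Agent.H309R2.AP3
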