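import Mathlib
import Pool.Agent.H24.Lib.R_seed8.H309R2.AP3.Size

/-!
Growth of the sizes in the recursion.
-/

namespace Pool.Agent.H309R2.AP3

open Finset

set_option linter.unusedSectionVars false
set_option linter.unusedVariables false

/-- The iterated families. -/
noncomputable def fam {p : ℕ} [NeZero p] (π : Par) (hp : p = 2 * π.P + 1) : (n : ℕ) → Fam p n
  | 0 => base p
  | n + 1 => next π (fam π hp n) hp

/-- The size operator on pairs. -/
def opKZ (H : ℕ) (t nu : ℕ → ℕ) (w : (ℕ → ℕ) × (ℕ → ℕ)) : (ℕ → ℕ) × (ℕ → ℕ) :=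
  (opK H t nu w.1 w.2,
   fun j => if j ≤ 2 * H then opZ H t nu w.1 w.2 (j - H) else opY H nu w.2 (j - 2 * H))

/-- The iterates of the size operator. -/
def kz (H : ℕ) (t nu : ℕ → ℕ) : ℕ → (ℕ → ℕ) × (ℕ → ℕ)
  | 0 => (fun i => if 1 ≤ i then 1 else 0, fun _ => 0)
  | n + 1 => opKZ H t nu (kz H t nu n)

section mono
variable {H : ℕ} {t nu k1 z1 k2 z2 : ℕ → ℕ} {a b : ℕ}

lemma opK_mono (hk : ∀ i, a * k1 i ≤ b * k2 i) (hz : ∀ j, a * z1 j ≤ b * z2 j) (i : ℕ) :
    a * opK H t nu k1 z1 i ≤ b * opK H t nu k2 z2 i := by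
  unfold opK
  rw [mul_add, mul_add, mul_sum, mul_sum, mul_sum, mul_sum]
  exact Nat.add_le_add (sum_le_sum fun _ _ => hk _) (sum_le_sum fun _ _ => hz _)

lemma opZ_mono (hk : ∀ i, a * k1 i ≤ b * k2 i) (hz : ∀ j, a * z1 j ≤ b * z2 j) (m : ℕ) :
    a * opZ H t nu k1 z1 m ≤ b * opZ H t nu k2 z2 m := by
  unfold opZ
  rw [mul_add, mul_add, mul_add, mul_add, mul_sum, mul_sum, mul_sum, mul_sum, mul_sum, mul_sum]
  exact Nat.add_le_add (Nat.add_le_add (sum_le_sum fun _ _ => hk _) (sum_le_sum fun _ _ => hz _))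
    (sum_le_sum fun _ _ => hz _)

lemma opY_mono (hz : ∀ j, a * z1 j ≤ b * z2 j) (m : ℕ) :
    a * opY H nu z1 m ≤ b * opY H nu z2 m := by
  unfold opY
  rw [mul_sum, mul_sum]
  apply sum_le_sum
  intro c _
  split_ifs
  · exact hz _
  · simp

lemma opKZ_mono {w1 w2 : (ℕ → ℕ) × (ℕ → ℕ)} (hk : ∀ i, a * w1.1 i ≤ b * w2.1 i)
    (hz : ∀ j, a * w1.2 j ≤ b * w2.2 j) :
    (∀ i, a * (opKZ H t nu w1).1 i ≤ b * (opKZ H t nu w2).1 i) ∧
      ∀ j, a * (opKZ H t nu w1).2 j ≤ b * (opKZ H t nu w2).2 j := by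
  refine ⟨fun i => opK_mono hk hz i, fun j => ?_⟩
  simp only [opKZ]
  split_ifs
  · exact opZ_mono hk hz _
  · exact opY_mono hz _

end mono

/-- The cardinalities in the iterated families dominate the iterates of the size operator. -/
lemma card_fam {p : ℕ} [NeZero p] (π : Par) (hp : p = 2 * π.P + 1) (n : ℕ) :
    (∀ i, π.q ^ n * (kz π.H π.t π.nu n).1 i ≤ ((fam π hp n).K i).card) ∧
      ∀ j, π.q ^ n * (kz π.H π.t π.nu n).2 j ≤ ((fam π hp n).Z j).card := by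
  induction n with
  | zero =>
    refine ⟨fun i => ?_, fun j => ?_⟩
    · simp only [pow_zero, one_mul, kz, fam, base]
      split_ifs with h
      · rw [card_univ]; exact Fintype.card_pos
      · simp
    · simp [kz]
  | succ n ih =>
    obtain ⟨ih1, ih2⟩ := ih
    have key := opKZ_mono (H := π.H) (t := π.t) (nu := π.nu) (a := π.q ^ n) (b := 1)
      (w1 := kz π.H π.t π.nu n)
      (w2 := (fun i => ((fam π hp n).K i).card, fun j => ((fam π hp n).Z j).card))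
      (fun i => by rw [one_mul]; exact ih1 i) (fun j => by rw [one_mul]; exact ih2 j)
    obtain ⟨key1, key2⟩ := key
    refine ⟨fun i => ?_, fun j => ?_⟩
    · have h1 := key1 i
      rw [one_mul] at h1
      have h2 := card_nK π (fam π hp n) hp i
      calc π.q ^ (n + 1) * (kz π.H π.t π.nu (n + 1)).1 i
          = π.q * (π.q ^ n * (opKZ π.H π.t π.nu (kz π.H π.t π.nu n)).1 i) := by
            rw [pow_succ, kz]; ring
        _ ≤ π.q * opK π.H π.t π.nu (fun i => ((fam π hp n).K i).card)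
              (fun j => ((fam π hp n).Z j).card) i := Nat.mul_le_mul_left _ h1
        _ ≤ _ := h2
    · have h1 := key2 j
      rw [one_mul] at h1
      have hgoal : π.q ^ (n + 1) * (kz π.H π.t π.nu (n + 1)).2 j
          = π.q * (π.q ^ n * (opKZ π.H π.t π.nu (kz π.H π.t π.nu n)).2 j) := by
        rw [pow_succ, kz]; ring
      rw [hgoal]
      refine le_trans (Nat.mul_le_mul_left _ h1) ?_
      simp only [opKZ]
      split_ifs with hj
      · exact card_nZ π (fam π hp n) hp hj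
      · exact card_nY π (fam π hp n) hp hj

/-- Iterating a certificate. -/
lemma kz_grow {H : ℕ} {t nu : ℕ → ℕ} {w : (ℕ → ℕ) × (ℕ → ℕ)} {Rn Rd C n0 : ℕ}
    (h1 : ∀ i, Rn * w.1 i ≤ Rd * (opKZ H t nu w).1 i)
    (h2 : ∀ j, Rn * w.2 j ≤ Rd * (opKZ H t nu w).2 j)
    (h3 : ∀ i, w.1 i ≤ C * (kz H t nu n0).1 i)
    (h4 : ∀ j, w.2 j ≤ C * (kz H t nu n0).2 j) (m : ℕ) :
    (∀ i, Rn ^ m * w.1 i ≤ (Rd ^ m * C) * (kz H t nu (n0 + m)).1 i) ∧
      ∀ j, Rn ^ m * w.2 j ≤ (Rd ^ m * C) * (kz H t nu (n0 + m)).2 j := by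
  induction m with
  | zero => simpa using ⟨h3, h4⟩
  | succ m ih =>
    obtain ⟨ih1, ih2⟩ := ih
    obtain ⟨k1, k2⟩ := opKZ_mono (H := H) (t := t) (nu := nu) ih1 ih2
    refine ⟨fun i => ?_, fun j => ?_⟩
    · calc Rn ^ (m + 1) * w.1 i = Rn ^ m * (Rn * w.1 i) := by ring
        _ ≤ Rn ^ m * (Rd * (opKZ H t nu w).1 i) := Nat.mul_le_mul_left _ (h1 i)
        _ = Rd * (Rn ^ m * (opKZ H t nu w).1 i) := by ring
        _ ≤ Rd * (Rd ^ m * C * (opKZ H t nu (kz H t nu (n0 + m))).1 i) :=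
            Nat.mul_le_mul_left _ (k1 i)
        _ = (Rd ^ (m + 1) * C) * (kz H t nu (n0 + (m + 1))).1 i := by
            rw [← add_assoc, kz]; ring
    · calc Rn ^ (m + 1) * w.2 j = Rn ^ m * (Rn * w.2 j) := by ring
        _ ≤ Rn ^ m * (Rd * (opKZ H t nu w).2 j) := Nat.mul_le_mul_left _ (h2 j)
        _ = Rd * (Rn ^ m * (opKZ H t nu w).2 j) := by ring
        _ ≤ Rd * (Rd ^ m * C * (opKZ H t nu (kz H t nu (n0 + m))).2 j) :=
            Nat.mul_le_mul_left _ (k2 j)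
        _ = (Rd ^ (m + 1) * C) * (kz H t nu (n0 + (m + 1))).2 j := by
            rw [← add_assoc, kz]; ring

end Pool.Agent.H309R2.AP3
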