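import Mathlib
import Pool.Agent.H24.Lib.R_seed8.H309R2.AP3.Grow

/-!
A kernel-checkable certificate for the growth of the sizes in the recursion.
-/

namespace Pool.Agent.H309R2.AP3

open Finset

set_option linter.unusedSectionVars false
set_option linter.unusedVariables false

/-- `allN f n` checks `f` on `0, ..., n - 1`. -/
def allN (f : ℕ → Bool) (n : ℕ) : Bool :=
  Nat.rec true (fun m b => (f m).and b) n

lemma allN_iff {f : ℕ → Bool} {n : ℕ} (h : allN f n = true) : ∀ m < n, f m = true := by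
  induction n with
  | zero => intro m hm; omega
  | succ n ih =>
    have h' : ((f n).and (allN f n)) = true := h
    rw [Bool.and_eq_true_iff] at h'
    intro m hm
    rcases Nat.lt_succ_iff_lt_or_eq.1 hm with h1 | h1
    · exact ih h'.2 m h1
    · rw [h1]; exact h'.1

/-- Digit number `i` of `N` in base `2 ^ w`. -/
def dig (w N i : ℕ) : ℕ := Nat.mod (Nat.shiftRight N (Nat.mul w i)) (Nat.pow 2 w)

lemma dig_lt (w N i : ℕ) : dig w N i < 2 ^ w :=
  Nat.mod_lt _ (Nat.pow_pos (by norm_num) : 0 < 2 ^ w)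

/-- The parameters. -/
def tt (t0 c a : ℕ) : ℕ := t0 + (3 * a + c) / 2

/-- The parameters. -/
def vv (t0 c b : ℕ) : ℕ := 2 * t0 + (3 * b + 2 * c) / 2 - c * (1 - b)

lemma tt_vv {t0 c : ℕ} (hc : c ≤ 1) (b a₁ a₂ : ℕ) (h : a₁ + a₂ ≤ b) :
    tt t0 c a₁ + tt t0 c a₂ ≤ vv t0 c b := by
  unfold tt vv
  interval_cases c
  · omega
  · rcases Nat.eq_zero_or_pos b with hb | hb
    · subst hb
      have h1 : a₁ = 0 := by omega
      have h2 : a₂ = 0 := by omega
      subst h1 h2
      omega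
    · omega

/-- The certificate vectors. -/
def kap (w I KAP i : ℕ) : ℕ := dig w KAP (min i I)

/-- The certificate vectors. -/
def zet (w H ZET j : ℕ) : ℕ := if j < 3 * H then dig w ZET (j - H) else 0

/-- The check. -/
def chk (w H t0 c Rn Rd KAP ZET PK PN PO : ℕ) : Bool :=
  (Nat.beq (dig w KAP 0) 0).and <|
  (Nat.beq (dig w PK 0) 0).and <|
  (Nat.beq (dig w PN 0) 0).and <|
  (Nat.beq (dig w PO 0) 0).and <|
  (allN (fun a => Nat.beq (dig w PK (a + 1)) (dig w PK a + kap w (H + H / 2) KAP (tt t0 c a))) H).and <|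
  (allN (fun a => Nat.beq (dig w PN (a + 1)) (dig w PN a + zet w H ZET (vv t0 c a))) H).and <|
  (allN (fun b => Nat.beq (dig w PO (b + 1)) (dig w PO b + zet w H ZET (vv t0 c (2 * b + 1))))
    (H / 2)).and <|
  (allN (fun i => Nat.ble (Rn * dig w KAP i)
    (Rd * (dig w PK (min i H) + dig w PO (min (i - H) (H / 2))))) (H + H / 2 + 1)).and <|
  (allN (fun m => Nat.ble (Rn * dig w ZET m + Rd * (dig w PK (m / 2) + dig w PO (m / 2)))
    (Rd * (dig w PK (H - m + m / 2) + dig w PN m + dig w PO ((H - m) / 2 + m / 2))))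
    H).and <|
  (Nat.ble (Rn * zet w H ZET (2 * H) + Rd * (dig w PK (H / 2) + dig w PO (H / 2)))
    (Rd * (dig w PK (H - H + H / 2) + dig w PN H + dig w PO ((H - H) / 2 + H / 2)))).and <|
  (allN (fun m => Nat.ble (Rn * dig w ZET (H + m) + Rd * dig w PN m) (Rd * dig w PN H)) H).and <|
  (Nat.ble 1 t0).and <| (Nat.ble c 1).and <| (Nat.ble (vv t0 c 0 + 1) (2 * H)).and <|
  (Nat.ble (vv t0 c (H - 1) + 1) (3 * H)).and <|
  (Nat.ble (vv t0 c (vv t0 c (H - 1) - 2 * H) + 1) (2 * H)).and <|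
  (Nat.ble 1 (dig w KAP (H + H / 2)))

lemma sum_eq_dig {w N H : ℕ} {f : ℕ → ℕ} (h0 : dig w N 0 = 0)
    (h : ∀ a < H, dig w N (a + 1) = dig w N a + f a) :
    ∀ x ≤ H, ∑ a ∈ range x, f a = dig w N x := by
  intro x
  induction x with
  | zero => intro _; rw [h0]; simp
  | succ x ih =>
    intro hx
    rw [sum_range_succ, ih (by omega), h x (by omega)]

/-- A shifted sum as a difference. -/
lemma sum_shift (f : ℕ → ℕ) (a b : ℕ) :
    ∑ x ∈ range a, f (x + b) + ∑ x ∈ range b, f x = ∑ x ∈ range (a + b), f x := by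
  rw [add_comm a b, sum_range_add, add_comm]
  congr 1
  exact sum_congr rfl fun x _ => by rw [add_comm]

/-- The conclusions of the check. -/
structure Cert (H : ℕ) (t nu k z : ℕ → ℕ) (Rn Rd C : ℕ) : Prop where
  hnu : ∀ b ≤ H, ∀ a₁ a₂, a₁ + a₂ ≤ b → t a₁ + t a₂ ≤ nu b
  h1 : ∀ i, Rn * k i ≤ Rd * opK H t nu k z i
  h2 : ∀ m ≤ H, Rn * z (H + m) ≤ Rd * opZ H t nu k z m
  h3 : ∀ m, 1 ≤ m → Rn * z (2 * H + m) ≤ Rd * opY H nu z m
  hz0 : ∀ j < H, z j = z H
  hk0 : k 0 = 0
  hz3 : ∀ j, 3 * H ≤ j → z j = 0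
  hkC : ∀ i, k i ≤ C
  hzC : ∀ j, z j ≤ C
  ht1 : ∀ a, 1 ≤ t a
  hn0 : nu 0 < 2 * H
  hn1 : nu (H - 1) < 3 * H
  hn2 : nu (nu (H - 1) - 2 * H) < 2 * H
  hk1 : ∃ i, 1 ≤ k i

lemma Cert_of_chk {w H t0 c Rn Rd KAP ZET PK PN PO : ℕ} (hH : 2 ≤ H)
    (h : chk w H t0 c Rn Rd KAP ZET PK PN PO = true) :
    Cert H (tt t0 c) (vv t0 c) (kap w (H + H / 2) KAP) (zet w H ZET) Rn Rd (2 ^ w) := by
  unfold chk at h
  simp only [Bool.and_eq_true_iff] at h
  obtain ⟨a1, a2, a3, a4, a5, a6, a7, a8, a9, a10, a11, a12, a13, a14, a15, a16, a17⟩ := h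
  have a1 := Nat.eq_of_beq_eq_true a1
  have a2 := Nat.eq_of_beq_eq_true a2
  have a3 := Nat.eq_of_beq_eq_true a3
  have a4 := Nat.eq_of_beq_eq_true a4
  have a5 := fun m hm => Nat.eq_of_beq_eq_true (allN_iff a5 m hm)
  have a6 := fun m hm => Nat.eq_of_beq_eq_true (allN_iff a6 m hm)
  have a7 := fun m hm => Nat.eq_of_beq_eq_true (allN_iff a7 m hm)
  have a8 := fun m hm => Nat.le_of_ble_eq_true (allN_iff a8 m hm)
  have a9 := fun m hm => Nat.le_of_ble_eq_true (allN_iff a9 m hm)
  have a10 := Nat.le_of_ble_eq_true a10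
  have a11 := fun m hm => Nat.le_of_ble_eq_true (allN_iff a11 m hm)
  have a12 := Nat.le_of_ble_eq_true a12
  have a13 := Nat.le_of_ble_eq_true a13
  have a14 := Nat.le_of_ble_eq_true a14
  have a15 := Nat.le_of_ble_eq_true a15
  have a16 := Nat.le_of_ble_eq_true a16
  have a17 := Nat.le_of_ble_eq_true a17
  set t := tt t0 c with ht
  set nu := vv t0 c with hnu
  set k := kap w (H + H / 2) KAP with hk
  set z := zet w H ZET with hz
  have sPK := sum_eq_dig (f := fun a => k (t a)) a2 a5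
  have sPN := sum_eq_dig (f := fun a => z (nu a)) a3 a6
  have sPO := sum_eq_dig (f := fun b => z (nu (2 * b + 1))) a4 a7
  have hopK : ∀ i, opK H t nu k z i = dig w PK (min i H) + dig w PO (min (i - H) (H / 2)) := by
    intro i
    unfold opK
    rw [sPK _ (by omega), sPO _ (by omega)]
  have hopZ : ∀ m ≤ H, opZ H t nu k z m + (dig w PK (m / 2) + dig w PO (m / 2)) =
      dig w PK (H - m + m / 2) + dig w PN m + dig w PO ((H - m) / 2 + m / 2) := by
    intro m hm
    have e1 := sum_shift (fun a => k (t a)) (H - m) (m / 2)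
    have e2 := sum_shift (fun b => z (nu (2 * b + 1))) ((H - m) / 2) (m / 2)
    rw [sPK _ (by omega), sPK _ (by omega)] at e1
    rw [sPO _ (by omega), sPO _ (by omega)] at e2
    have e3 : ∑ b ∈ range ((H - m) / 2), z (nu (2 * b + 1 + 2 * (m / 2))) =
        ∑ b ∈ range ((H - m) / 2), z (nu (2 * (b + m / 2) + 1)) := by
      apply sum_congr rfl
      intro b _
      congr 2
      ring
    unfold opZ
    rw [e3, sPN m hm]
    omega
  have hopY : ∀ m ≤ H, opY H nu z m + dig w PN m = dig w PN H := by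
    intro m hm
    unfold opY
    rw [← sPN m hm, ← sPN H le_rfl]
    have e : H = m + (H - m) := by omega
    conv_lhs => rw [e]
    conv_rhs => rw [e]
    rw [sum_range_add, sum_range_add, add_comm]
    have e1 : ∀ x ∈ range m, (if m ≤ x then z (nu x) else 0) = 0 := by
      intro x hx
      rw [mem_range] at hx
      rw [if_neg (by omega)]
    have e2 : ∀ x ∈ range (H - m), (if m ≤ m + x then z (nu (m + x)) else 0) = z (nu (m + x)) := by
      intro x _
      rw [if_pos (by omega)]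
    rw [sum_congr rfl e1, sum_congr rfl e2]
    simp
  have hzdig : ∀ m, m < 2 * H → z (H + m) = dig w ZET m := by
    intro m hm
    rw [hz, zet, if_pos (by omega), Nat.add_sub_cancel_left]
  refine ⟨?_, ?_, ?_, ?_, ?_, ?_, ?_, ?_, ?_, ?_, ?_, ?_, ?_, ?_⟩
  · intro b _ x y hxy
    exact tt_vv a13 b x y hxy
  · intro i
    rcases Nat.lt_or_ge i (H + H / 2 + 1) with hi | hi
    · rw [hopK]
      have := a8 i hi
      have e : k i = dig w KAP i := by rw [hk, kap, Nat.min_eq_left (by omega)]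
      rw [e]
      exact this
    · have := a8 (H + H / 2) (by omega)
      have e : k i = dig w KAP (H + H / 2) := by rw [hk, kap, Nat.min_eq_right (by omega)]
      rw [hopK, e]
      have e1 : min i H = min (H + H / 2) H := by omega
      have e2 : min (i - H) (H / 2) = min (H + H / 2 - H) (H / 2) := by omega
      rw [e1, e2]
      exact this
  · intro m hm
    have h5 := hopZ m hm
    have h6 : Rn * z (H + m) + Rd * (dig w PK (m / 2) + dig w PO (m / 2)) ≤
        Rd * (dig w PK (H - m + m / 2) + dig w PN m + dig w PO ((H - m) / 2 + m / 2)) := by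
      rcases Nat.lt_or_ge m H with h7 | h7
      · rw [hzdig m (by omega)]; exact a9 m h7
      · have : m = H := by omega
        rw [this, ← two_mul]; exact a10
    rw [← h5, Nat.mul_add Rd (opZ H t nu k z m)] at h6
    exact Nat.le_of_add_le_add_right h6
  · intro m hm
    rcases Nat.lt_or_ge m H with h7 | h7
    · have h5 := hopY m h7.le
      have h6 := a11 m h7
      have e : z (2 * H + m) = dig w ZET (H + m) := by
        rw [← hzdig (H + m) (by omega)]
        congr 1; ring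
      rw [← h5, Nat.mul_add Rd (opY H nu z m)] at h6
      rw [e]
      exact Nat.le_of_add_le_add_right h6
    · have e : z (2 * H + m) = 0 := by rw [hz, zet, if_neg (by omega)]
      rw [e]; simp
  · intro j hj
    rw [hz, zet, zet, if_pos (by omega), if_pos (by omega)]
    congr 1; omega
  · rw [hk, kap]; simpa using a1
  · intro j hj
    rw [hz, zet, if_neg (by omega)]
  · intro i
    exact (dig_lt _ _ _).le
  · intro j
    rw [hz, zet]
    split_ifs
    · exact (dig_lt _ _ _).le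
    · exact Nat.zero_le _
  · intro a
    rw [ht, tt]
    omega
  · omega
  · omega
  · omega
  · refine ⟨H + H / 2, ?_⟩
    rw [hk, kap, Nat.min_self]
    exact a17

end Pool.Agent.H309R2.AP3
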